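import Pool.Agent.H477R3.K5.Draw

set_option autoImplicit false

namespace Pool.Agent.H477R3.K5

section

variable {V : Type} (φ : V ↪ Vt)

/-- the finite graph -/
def G (φ : V ↪ Vt) : SimpleGraph V := bigG.comap φ

/-- position in the plane -/
def rp (φ : V ↪ Vt) (v : V) : ℝ × ℝ := toR (pt (φ v))

theorem toR_inj : Function.Injective toR := by
  intro a b h
  simp only [toR, Prod.mk.injEq, Int.cast_inj] at h
  exact Prod.ext h.1 h.2

theorem rp_inj : Function.Injective (rp φ) := fun _ _ h => φ.injective (pt_inj (toR_inj h))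

/-- the chosen order of the ends of an edge -/
noncomputable def ends (e : (G φ).edgeSet) : V × V := Quot.out e.1

theorem ends_eq (e : (G φ).edgeSet) : s((ends φ e).1, (ends φ e).2) = e.1 := by
  have : Quot.mk _ (Quot.out e.1) = e.1 := Quot.out_eq e.1
  exact this

theorem ends_adj (e : (G φ).edgeSet) : (G φ).Adj (ends φ e).1 (ends φ e).2 := by
  have h : s((ends φ e).1, (ends φ e).2) ∈ (G φ).edgeSet := by
    rw [ends_eq]; exact e.2
  exact h

theorem ends_ne (e : (G φ).edgeSet) : (ends φ e).1 ≠ (ends φ e).2 := (ends_adj φ e).ne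

/-- class and cell of an edge -/
theorem edge_data (e : (G φ).edgeSet) : ∃ c ∈ E, ∃ i j : ℤ,
    (φ (ends φ e).1 = src c i j ∧ φ (ends φ e).2 = tgt c i j) ∨
      (φ (ends φ e).2 = src c i j ∧ φ (ends φ e).1 = tgt c i j) := ends_adj φ e

/-- the drawing by straight segments -/
noncomputable def draw : Drawing (G φ) where
  pos := rp φ
  pos_inj := rp_inj φ
  arc e t := ((1 - t) * (rp φ (ends φ e).1).1 + t * (rp φ (ends φ e).2).1,
    (1 - t) * (rp φ (ends φ e).1).2 + t * (rp φ (ends φ e).2).2)
  arc_cont e := by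
    apply Continuous.continuousOn
    fun_prop
  arc_inj e := by
    intro t _ t' _ h
    simp only [Prod.mk.injEq] at h
    by_contra hne
    apply ends_ne φ e
    apply rp_inj φ
    have h1 : (t - t') * ((rp φ (ends φ e).1).1 - (rp φ (ends φ e).2).1) = 0 := by
      linear_combination -h.1
    have h2 : (t - t') * ((rp φ (ends φ e).1).2 - (rp φ (ends φ e).2).2) = 0 := by
      linear_combination -h.2
    have h3 : t - t' ≠ 0 := sub_ne_zero.mpr hne
    ext
    · have := (mul_eq_zero.mp h1).resolve_left h3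
      linarith
    · have := (mul_eq_zero.mp h2).resolve_left h3
      linarith
  arc_ends e := by
    have : Sym2.map (rp φ) e.1 = s(rp φ (ends φ e).1, rp φ (ends φ e).2) := by
      rw [← ends_eq φ e, Sym2.map_mk]
    rw [this]
    simp
  arc_avoid e v t ht h := by
    obtain ⟨c, hc, i, j, hd⟩ := edge_data φ e
    have hm : rp φ v ∈ openSegment ℝ (rp φ (ends φ e).1) (rp φ (ends φ e).2) := by
      refine ⟨1 - t, t, by linarith [ht.2], ht.1, by ring, ?_⟩
      rw [← h]
      ext <;> simp
    rcases hd with ⟨h1, h2⟩ | ⟨h1, h2⟩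
    · refine avoid hc (i := i) (j := j) (φ v) ?_
      have e1 : rp φ (ends φ e).1 = toR (s1 c i j) := by rw [rp, h1, pt_src]
      have e2 : rp φ (ends φ e).2 = toR (s2 c i j) := by rw [rp, h2, pt_tgt]
      rw [e1, e2] at hm
      exact hm
    · refine avoid hc (i := i) (j := j) (φ v) ?_
      have e1 : rp φ (ends φ e).2 = toR (s1 c i j) := by rw [rp, h1, pt_src]
      have e2 : rp φ (ends φ e).1 = toR (s2 c i j) := by rw [rp, h2, pt_tgt]
      rw [e1, e2, openSegment_symm] at hm
      exact hm

theorem inner_sub (e : (G φ).edgeSet) : (draw φ).inner e ⊆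
    openSegment ℝ (rp φ (ends φ e).1) (rp φ (ends φ e).2) := by
  rintro x ⟨t, ht, rfl⟩
  refine ⟨1 - t, t, by linarith [ht.2], ht.1, by ring, ?_⟩
  ext <;> simp [draw]

/-- class and cell of an edge, with its segment -/
theorem edge_seg (e : (G φ).edgeSet) : ∃ c ∈ E, ∃ i j : ℤ,
    Sym2.map φ e.1 = s(src c i j, tgt c i j) ∧
    (draw φ).inner e ⊆ openSegment ℝ (toR (s1 c i j)) (toR (s2 c i j)) := by
  obtain ⟨c, hc, i, j, hd⟩ := edge_data φ e
  refine ⟨c, hc, i, j, ?_, ?_⟩
  · rw [← ends_eq φ e, Sym2.map_mk]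
    rcases hd with ⟨h1, h2⟩ | ⟨h1, h2⟩
    · rw [h1, h2]
    · rw [h1, h2]; exact Sym2.eq_swap
  · refine (inner_sub φ e).trans ?_
    rcases hd with ⟨h1, h2⟩ | ⟨h1, h2⟩
    · rw [rp, rp, h1, h2, pt_src, pt_tgt]
    · rw [rp, rp, h1, h2, pt_src, pt_tgt, openSegment_symm]

theorem crossings_le (e : (G φ).edgeSet) : ((draw φ).crossings e).encard ≤ 5 := by
  classical
  obtain ⟨c, hc, i, j, he, hin⟩ := edge_seg φ e
  choose! g hg k l hkl hseg using edge_seg φ
  -- map a crossing to its class and relative cell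
  let F : (G φ).edgeSet × (ℝ × ℝ) → Cls × ℤ × ℤ := fun q => (g q.1, k q.1 - i, l q.1 - j)
  have hF : Set.MapsTo F ((draw φ).crossings e) {r | r ∈ crossList c} := by
    rintro ⟨f, x⟩ ⟨hne, hx1, hx2⟩
    simp only at hne hx1 hx2
    refine listed (c := c) (d := g f) hc (hg f) (i := i) (j := j) (k := k f - i) (l := l f - j)
      ?_ (hin hx1) ?_
    · rintro ⟨h1, h2, h3⟩
      apply hne
      have e1 : k f = i := by omega
      have e2 : l f = j := by omega
      have : Sym2.map φ f.1 = Sym2.map φ e.1 := by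
        rw [hkl f, he, h1, e1, e2]
      exact Subtype.ext (Sym2.map.injective φ.injective this)
    · have e1 : i + (k f - i) = k f := by ring
      have e2 : j + (l f - j) = l f := by ring
      rw [e1, e2]
      exact hseg f hx2
  have hinj : Set.InjOn F ((draw φ).crossings e) := by
    rintro ⟨f, x⟩ hq ⟨f', x'⟩ hq' hFF
    have hm := hF hq
    obtain ⟨hne, hx1, hx2⟩ := hq
    obtain ⟨hne', hx1', hx2'⟩ := hq'
    simp only at hne hx1 hx2 hne' hx1' hx2'
    simp only [F, Prod.mk.injEq] at hFF
    have hgg : g f = g f' := by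
      obtain ⟨h1, -⟩ := hFF
      revert h1
      rcases g f with ⟨a1, a2, a3, a4⟩
      rcases g f' with ⟨b1, b2, b3, b4⟩
      intro h1
      simpa using h1
    have hk : k f = k f' := by
      have := hFF.2.1
      omega
    have hl : l f = l f' := by
      have := hFF.2.2
      omega
    have hff : f = f' := by
      apply Subtype.ext
      apply Sym2.map.injective φ.injective
      rw [hkl f, hkl f', hgg, hk, hl]
    subst hff
    have hdet := (check_cross c hc).2 _ hm
    have hxx : x = x' := by
      refine cross_unique (a := s1 c i j) (b := s2 c i j) (c := s1 (g f) (k f) (l f))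
        (d := s2 (g f) (k f) (l f)) ?_ (hin hx1) (hseg f hx2) (hin hx1') (hseg f hx2')
      intro h0
      apply hdet
      simp only [F, detZ, s1, s2] at h0 ⊢
      linear_combination h0
    rw [hxx]
  have h1 := Set.encard_le_encard_of_injOn hF hinj
  refine h1.trans ?_
  have h2 : {r | r ∈ crossList c} = (((crossList c).toFinset : Finset (Cls × ℤ × ℤ)) : Set _) := by
    ext r; simp
  rw [h2, Set.encard_coe_eq_coe_finsetCard]
  have h3 := (crossList c).toFinset_card_le
  have h4 := (check_cross c hc).1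
  exact_mod_cast h3.trans h4

theorem kplanar : KPlanar 5 (G φ) := ⟨draw φ, fun e => by exact_mod_cast crossings_le φ e⟩

end

end Pool.Agent.H477R3.K5
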