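import Pool.Agent.H477R3.K5.Main

set_option autoImplicit false

namespace Pool.Agent.H477R3.K5

theorem edge_count {V : Type} [Finite V] (φ : V ↪ Vt) (M : ℕ)
    (hφ : ∀ u : Vt, 0 ≤ u.1 → u.1 < M → 0 ≤ u.2.1 → u.2.1 < M → ∃ v, φ v = u) :
    63 * (M - 2) ^ 2 ≤ (G φ).edgeSet.ncard := by
  classical
  have hex : ∀ q : Fin E.length × Fin (M - 2) × Fin (M - 2), ∃ e : (G φ).edgeSet,
      Sym2.map φ e.1 = s(src (E.get q.1) (q.2.1.1 + 1) (q.2.2.1 + 1),
        tgt (E.get q.1) (q.2.1.1 + 1) (q.2.2.1 + 1)) := by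
    rintro ⟨t, a, b⟩
    have hc : E.get t ∈ E := List.get_mem E t
    have hb := check_bd _ hc
    have ha' := a.2
    have hb' := b.2
    obtain ⟨u, hu⟩ := hφ (src (E.get t) (a.1 + 1) (b.1 + 1))
      (by simp only [src]; omega) (by simp only [src]; omega)
      (by simp only [src]; omega) (by simp only [src]; omega)
    obtain ⟨w, hw⟩ := hφ (tgt (E.get t) (a.1 + 1) (b.1 + 1))
      (by simp only [tgt]; omega) (by simp only [tgt]; omega)
      (by simp only [tgt]; omega) (by simp only [tgt]; omega)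
    refine ⟨⟨s(u, w), ?_⟩, ?_⟩
    · show (G φ).Adj u w
      exact ⟨E.get t, hc, a.1 + 1, b.1 + 1, Or.inl ⟨hu, hw⟩⟩
    · simp only [Sym2.map_mk, hu, hw]
  choose f hf using hex
  have hinj : Function.Injective f := by
    rintro ⟨t, a, b⟩ ⟨t', a', b'⟩ h
    have h1 := hf (t, a, b)
    have h2 := hf (t', a', b')
    rw [h, h2] at h1
    simp only [Sym2.eq_iff] at h1
    rcases h1 with ⟨h3, h4⟩ | ⟨h3, h4⟩
    · obtain ⟨g1, g2, g3⟩ := cls_eq h3 h4
      have e1 : t' = t := (List.nodup_iff_injective_get.mp E_nodup) g1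
      have e2 : a' = a := by
        apply Fin.ext
        omega
      have e3 : b' = b := by
        apply Fin.ext
        omega
      rw [e1, e2, e3]
    · exact (src_tgt_ne (List.get_mem E t') (List.get_mem E t) h3 h4).elim
  have hcard := Nat.card_le_card_of_injective f hinj
  rw [Nat.card_coe_set_eq] at hcard
  have : Nat.card (Fin E.length × Fin (M - 2) × Fin (M - 2)) = 63 * (M - 2) ^ 2 := by
    rw [Nat.card_prod, Nat.card_prod, Nat.card_fin, Nat.card_fin, E_length]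
    ring
  rw [this] at hcard
  exact hcard

/-- the enumeration of the vertices -/
def phiFun (M k : ℕ) : Vt :=
  if k < 10 * M ^ 2 then (((k / 10 / M : ℕ) : ℤ), ((k / 10 % M : ℕ) : ℤ), Fin.ofNat 10 k)
  else (-((k : ℤ) + 1), 0, 0)

theorem phiFun_inj (M : ℕ) : Function.Injective (phiFun M) := by
  intro k k' h
  unfold phiFun at h
  split_ifs at h with h1 h2 h2
  · simp only [Prod.mk.injEq, Nat.cast_inj] at h
    obtain ⟨a1, a2, a3⟩ := h
    have e1 : k / 10 = k' / 10 := by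
      rw [← Nat.div_add_mod (k / 10) M, ← Nat.div_add_mod (k' / 10) M, a1, a2]
    have e2 : k % 10 = k' % 10 := by
      have := congrArg Fin.val a3
      simpa [Fin.ofNat] using this
    omega
  · simp only [Prod.mk.injEq] at h
    have h3 := h.1
    have h4 := Int.natCast_nonneg (k / 10 / M)
    linarith [Int.natCast_nonneg k']
  · simp only [Prod.mk.injEq] at h
    have h3 := h.1
    have h4 := Int.natCast_nonneg (k' / 10 / M)
    linarith [Int.natCast_nonneg k]
  · simp only [Prod.mk.injEq] at h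
    have := h.1
    omega

/-- the embedding of `Fin n` -/
def phi (n M : ℕ) : Fin n ↪ Vt :=
  ⟨fun k => phiFun M k.1, fun _ _ h => Fin.ext (phiFun_inj M h)⟩

theorem phi_block (n M : ℕ) (hn : 10 * M ^ 2 ≤ n) (u : Vt) (h1 : 0 ≤ u.1) (h2 : u.1 < M)
    (h3 : 0 ≤ u.2.1) (h4 : u.2.1 < M) : ∃ v, phi n M v = u := by
  obtain ⟨i, j, v⟩ := u
  simp only at h1 h2 h3 h4
  obtain ⟨i, rfl⟩ := Int.eq_ofNat_of_zero_le h1
  obtain ⟨j, rfl⟩ := Int.eq_ofNat_of_zero_le h3
  have hi : i < M := by exact_mod_cast h2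
  have hj : j < M := by exact_mod_cast h4
  have hv := v.2
  have hlt : (i * M + j) * 10 + v.1 < 10 * M ^ 2 := by
    have : i * M + j + 1 ≤ M * M := by nlinarith
    nlinarith
  refine ⟨⟨(i * M + j) * 10 + v.1, by omega⟩, ?_⟩
  show phiFun M ((i * M + j) * 10 + v.1) = _
  unfold phiFun
  rw [if_pos hlt]
  have e1 : ((i * M + j) * 10 + v.1) / 10 = i * M + j := by omega
  rw [e1]
  have e2 : (i * M + j) / M = i := by
    rw [mul_comm, Nat.mul_add_div (by omega), Nat.div_eq_of_lt hj, add_zero]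
  have e3 : (i * M + j) % M = j := by
    rw [mul_comm, Nat.mul_add_mod, Nat.mod_eq_of_lt hj]
  rw [e2, e3]
  simp only [Prod.mk.injEq, true_and]
  apply Fin.ext
  simp only [Fin.ofNat]
  omega

/-- the maximum number of edges of a `k`-planar graph with `n` vertices -/
noncomputable def maxEdges (k n : ℕ) : ℕ :=
  sSup {m : ℕ | ∃ G : SimpleGraph (Fin n), KPlanar k G ∧ G.edgeSet.ncard = m}

theorem le_maxEdges {k n : ℕ} {H : SimpleGraph (Fin n)} (h : KPlanar k H) :
    H.edgeSet.ncard ≤ maxEdges k n := by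
  apply le_csSup
  · refine ⟨Fintype.card (Sym2 (Fin n)), ?_⟩
    rintro m ⟨H', -, rfl⟩
    rw [← Nat.card_eq_fintype_card, ← Set.ncard_univ]
    exact Set.ncard_le_ncard (Set.subset_univ _)
  · exact ⟨H, h, rfl⟩

theorem main (n : ℕ) : 63 / 10 * (n : ℝ) - 120 * Real.sqrt n ≤ maxEdges 5 n := by
  set M := Nat.sqrt (n / 10) with hM
  have h1 : M * M ≤ n / 10 := Nat.sqrt_le _
  have h2 : n / 10 < (M + 1) * (M + 1) := Nat.lt_succ_sqrt _
  have h3 : 10 * M ^ 2 ≤ n := by nlinarith [Nat.div_mul_le_self n 10]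
  have h4 : n < 10 * (M + 1) ^ 2 := by
    have : n < 10 * (n / 10 + 1) := by omega
    nlinarith
  have h5 : 63 * (M - 2) ^ 2 ≤ maxEdges 5 n :=
    (edge_count (phi n M) M (phi_block n M h3)).trans (le_maxEdges (kplanar (phi n M)))
  have hs : (315 / 100 * M : ℝ) ≤ Real.sqrt n := by
    apply Real.le_sqrt_of_sq_le
    have : ((10 * M ^ 2 : ℕ) : ℝ) ≤ n := by exact_mod_cast h3
    push_cast at this
    nlinarith [sq_nonneg (M : ℝ)]
  have h4' : (n : ℝ) ≤ 10 * (M + 1) ^ 2 := by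
    have : (n : ℝ) < ((10 * (M + 1) ^ 2 : ℕ) : ℝ) := by exact_mod_cast h4
    push_cast at this
    exact this.le
  have h5' : ((63 * (M - 2) ^ 2 : ℕ) : ℝ) ≤ maxEdges 5 n := by exact_mod_cast h5
  by_cases hM2 : 2 ≤ M
  · obtain ⟨m, hm⟩ := Nat.exists_eq_add_of_le hM2
    rw [hm] at h5'
    have e : 2 + m - 2 = m := by omega
    rw [e] at h5'
    push_cast at h5'
    have hm' : (M : ℝ) = 2 + m := by rw [hm]; push_cast; ring
    have hm0 : (0 : ℝ) ≤ m := Nat.cast_nonneg m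
    rw [hm'] at hs h4'
    refine le_trans ?_ h5'
    have q1 : 63 / 10 * (n : ℝ) ≤ 63 * (3 + m) ^ 2 := by nlinarith
    have q2 : 63 * (3 + (m : ℝ)) ^ 2 - 63 * m ^ 2 = 378 * m + 567 := by ring
    linarith
  · have hM1 : M + 1 ≤ 2 := by omega
    have h6 : n ≤ 49 := by nlinarith
    have h7 : Real.sqrt n ≤ 7 := by
      rw [show (7 : ℝ) = Real.sqrt 49 by
        rw [show (49 : ℝ) = 7 ^ 2 by norm_num, Real.sqrt_sq (by norm_num)]]
      apply Real.sqrt_le_sqrt
      exact_mod_cast h6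
    have h8 : (n : ℝ) = Real.sqrt n * Real.sqrt n := (Real.mul_self_sqrt (Nat.cast_nonneg n)).symm
    have h9 : 0 ≤ Real.sqrt n := Real.sqrt_nonneg _
    have h10 : (0 : ℝ) ≤ maxEdges 5 n := Nat.cast_nonneg _
    nlinarith

end Pool.Agent.H477R3.K5
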