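import Mathlib

set_option autoImplicit false

/-!
# Data of the doubly periodic geometric graph with 63 edge classes on 10 vertex classes
-/

namespace Pool.Agent.H477R3.K5

/-- positions of the ten vertex classes in the cell `[0,60)²` -/
def posTable : List (ℤ × ℤ) :=
  [(32, 22), (14, 42), (38, 4), (45, 51), (20, 34), (52, 58), (5, 57), (43, 58), (57, 45), (58, 2)]

/-- position of vertex class `v` -/
def P (v : Fin 10) : ℤ × ℤ := posTable.getD v.1 (0, 0)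

/-- an edge class: from vertex class `c.1` in cell `(0,0)` to vertex class `c.2.1` in cell
`(c.2.2.1, c.2.2.2)` -/
abbrev Cls := Fin 10 × Fin 10 × ℤ × ℤ

/-- the 63 edge classes -/
def E : List Cls :=
  [(0, 1, 0, 0), (0, 2, 0, 0), (0, 2, 0, 1), (0, 3, 0, 0), (0, 4, 0, 0), (0, 6, 0, -1), (0, 6, 0, 0),
   (0, 7, 0, -1), (0, 7, 0, 0), (0, 8, -1, 0), (0, 8, 0, 0), (0, 9, -1, 0), (1, 2, 0, 1),
   (1, 3, -1, 0), (1, 4, 0, 0), (1, 5, -1, 0), (1, 6, 0, 0), (1, 7, -1, 0), (1, 7, 0, 0),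
   (1, 8, -1, 0), (1, 9, -1, 0), (1, 9, -1, 1), (2, 3, 0, -1), (2, 3, 0, 0), (2, 4, 0, -1),
   (2, 4, 0, 0), (2, 5, -1, -1), (2, 5, 0, -1), (2, 6, 0, -1), (2, 7, 0, -1), (2, 7, 0, 0),
   (2, 8, -1, 0), (2, 8, 0, 0), (2, 9, -1, 0), (2, 9, 0, 0), (3, 4, 0, 0), (3, 4, 1, 0),
   (3, 5, 0, -1), (3, 5, 0, 0), (3, 6, 1, 0), (3, 7, 0, -1), (3, 7, 0, 0), (3, 8, 0, 0),
   (3, 9, 0, 0), (4, 6, 0, -1), (4, 6, 0, 0), (4, 7, 0, 0), (4, 8, -1, 0), (4, 9, -1, 0),
   (5, 6, 1, 0), (5, 7, 0, 0), (5, 8, 0, 0), (5, 8, 0, 1), (5, 9, 0, 1), (6, 7, -1, 0),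
   (6, 7, 0, 0), (6, 8, -1, 0), (6, 8, -1, 1), (6, 9, -1, 1), (7, 8, 0, 0), (7, 8, 0, 1),
   (7, 9, 0, 1), (8, 9, 0, 0)]

/-- orientation determinant -/
def crossZ (a b c : ℤ × ℤ) : ℤ := (b.1 - a.1) * (c.2 - a.2) - (b.2 - a.2) * (c.1 - a.1)

/-- `c` and `d` are weakly on one side of the line `ab` and not both on it -/
def sideZ (a b c d : ℤ × ℤ) : Bool :=
  (decide (0 ≤ crossZ a b c) && decide (0 ≤ crossZ a b d) &&
      (decide (0 < crossZ a b c) || decide (0 < crossZ a b d))) ||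
    (decide (crossZ a b c ≤ 0) && decide (crossZ a b d ≤ 0) &&
      (decide (crossZ a b c < 0) || decide (crossZ a b d < 0)))

/-- the boxes of `ab` and `cd` are strictly separated -/
def boxZ (a b c d : ℤ × ℤ) : Bool :=
  (decide (a.1 < c.1) && decide (a.1 < d.1) && decide (b.1 < c.1) && decide (b.1 < d.1)) ||
  (decide (c.1 < a.1) && decide (c.1 < b.1) && decide (d.1 < a.1) && decide (d.1 < b.1)) ||
  (decide (a.2 < c.2) && decide (a.2 < d.2) && decide (b.2 < c.2) && decide (b.2 < d.2)) ||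
  (decide (c.2 < a.2) && decide (c.2 < b.2) && decide (d.2 < a.2) && decide (d.2 < b.2))

/-- certified disjointness of the open segments `ab`, `cd` -/
def apart (a b c d : ℤ × ℤ) : Bool := boxZ a b c d || sideZ a b c d || sideZ c d a b

/-- first end of edge class `c` in cell `(i,j)` -/
def s1 (c : Cls) (i j : ℤ) : ℤ × ℤ := ((P c.1).1 + 60 * i, (P c.1).2 + 60 * j)

/-- second end of edge class `c` in cell `(i,j)` -/
def s2 (c : Cls) (i j : ℤ) : ℤ × ℤ :=
  ((P c.2.1).1 + 60 * (i + c.2.2.1), (P c.2.1).2 + 60 * (j + c.2.2.2))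

/-- the relative cells to be checked -/
def cells : List (ℤ × ℤ) := ([-2, -1, 0, 1, 2] : List ℤ).product [-2, -1, 0, 1, 2]

/-- all relevant translates of edge classes -/
def cand : List (Cls × ℤ × ℤ) := E.product cells

/-- the translates whose open segments are not certified to be disjoint from that of `c` -/
def crossList (c : Cls) : List (Cls × ℤ × ℤ) :=
  cand.filter fun q => (!decide (q = (c, 0, 0))) &&
    !apart (s1 c 0 0) (s2 c 0 0) (s1 q.1 q.2.1 q.2.2) (s2 q.1 q.2.1 q.2.2)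

/-- direction determinant of class `c` and class `d` -/
def detZ (c d : Cls) : ℤ :=
  ((s2 c 0 0).1 - (s1 c 0 0).1) * ((s2 d 0 0).2 - (s1 d 0 0).2) -
    ((s2 c 0 0).2 - (s1 c 0 0).2) * ((s2 d 0 0).1 - (s1 d 0 0).1)

theorem check_cross : ∀ c ∈ E, (crossList c).length ≤ 5 ∧ ∀ q ∈ crossList c, detZ c q.1 ≠ 0 := by
  decide +kernel

end Pool.Agent.H477R3.K5
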