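import Pool.Agent.H477R3.K5.Data

set_option autoImplicit false

namespace Pool.Agent.H477R3.K5

/-- the real point of an integer point -/
def toR (a : ℤ × ℤ) : ℝ × ℝ := ((a.1 : ℝ), (a.2 : ℝ))

theorem mem_os {a b : ℤ × ℤ} {x : ℝ × ℝ} (hx : x ∈ openSegment ℝ (toR a) (toR b)) :
    ∃ t : ℝ, 0 < t ∧ t < 1 ∧ x.1 = (1 - t) * a.1 + t * b.1 ∧ x.2 = (1 - t) * a.2 + t * b.2 := by
  obtain ⟨s, t, hs, ht, hst, rfl⟩ := hx
  refine ⟨t, ht, by linarith, ?_, ?_⟩
  · have : s = 1 - t := by linarith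
    simp [toR, this]
  · have : s = 1 - t := by linarith
    simp [toR, this]

theorem side_sound {a b c d : ℤ × ℤ} (h : sideZ a b c d = true) {x : ℝ × ℝ}
    (hx : x ∈ openSegment ℝ (toR a) (toR b)) (hy : x ∈ openSegment ℝ (toR c) (toR d)) : False := by
  obtain ⟨t, ht0, ht1, h1, h2⟩ := mem_os hx
  obtain ⟨u, hu0, hu1, h3, h4⟩ := mem_os hy
  have key : (1 - u) * (crossZ a b c : ℝ) + u * (crossZ a b d : ℝ) = 0 := by
    have e1 : (1 - u) * (c.1 : ℝ) + u * d.1 = (1 - t) * a.1 + t * b.1 := by rw [← h1, ← h3]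
    have e2 : (1 - u) * (c.2 : ℝ) + u * d.2 = (1 - t) * a.2 + t * b.2 := by rw [← h2, ← h4]
    have : (1 - u) * (crossZ a b c : ℝ) + u * (crossZ a b d : ℝ)
        = ((b.1 : ℝ) - a.1) * (((1 - u) * c.2 + u * d.2) - a.2)
          - ((b.2 : ℝ) - a.2) * (((1 - u) * c.1 + u * d.1) - a.1) := by
      simp only [crossZ]; push_cast; ring
    rw [this, e1, e2]; ring
  have hu' : 0 < 1 - u := by linarith
  simp only [sideZ, Bool.or_eq_true, Bool.and_eq_true, decide_eq_true_eq] at h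
  rcases h with ⟨⟨p, q⟩, r⟩ | ⟨⟨p, q⟩, r⟩
  · have p' : (0 : ℝ) ≤ crossZ a b c := by exact_mod_cast p
    have q' : (0 : ℝ) ≤ crossZ a b d := by exact_mod_cast q
    rcases r with r | r
    · have r' : (0 : ℝ) < crossZ a b c := by exact_mod_cast r
      nlinarith [mul_pos hu' r', mul_nonneg hu0.le q']
    · have r' : (0 : ℝ) < crossZ a b d := by exact_mod_cast r
      nlinarith [mul_pos hu0 r', mul_nonneg hu'.le p']
  · have p' : (crossZ a b c : ℝ) ≤ 0 := by exact_mod_cast p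
    have q' : (crossZ a b d : ℝ) ≤ 0 := by exact_mod_cast q
    rcases r with r | r
    · have r' : (crossZ a b c : ℝ) < 0 := by exact_mod_cast r
      nlinarith [mul_pos hu' (neg_pos.mpr r'), mul_nonneg hu0.le (neg_nonneg.mpr q')]
    · have r' : (crossZ a b d : ℝ) < 0 := by exact_mod_cast r
      nlinarith [mul_pos hu0 (neg_pos.mpr r'), mul_nonneg hu'.le (neg_nonneg.mpr p')]

theorem conv_lt {t u a b c d : ℝ} (ht0 : 0 < t) (ht1 : t < 1) (hu0 : 0 < u) (hu1 : u < 1)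
    (h1 : a < c) (h2 : a < d) (h3 : b < c) (h4 : b < d) :
    (1 - t) * a + t * b < (1 - u) * c + u * d := by
  have e1 : (1 - t) * a + t * b ≤ max a b := by
    nlinarith [mul_nonneg (sub_nonneg.mpr ht1.le) (sub_nonneg.mpr (le_max_left a b)),
      mul_nonneg ht0.le (sub_nonneg.mpr (le_max_right a b))]
  have e2 : min c d ≤ (1 - u) * c + u * d := by
    nlinarith [mul_nonneg (sub_nonneg.mpr hu1.le) (sub_nonneg.mpr (min_le_left c d)),
      mul_nonneg hu0.le (sub_nonneg.mpr (min_le_right c d))]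
  have e3 : max a b < min c d := by
    rw [max_lt_iff, lt_min_iff, lt_min_iff]
    exact ⟨⟨h1, h2⟩, ⟨h3, h4⟩⟩
  linarith

theorem box_sound {a b c d : ℤ × ℤ} (h : boxZ a b c d = true) {x : ℝ × ℝ}
    (hx : x ∈ openSegment ℝ (toR a) (toR b)) (hy : x ∈ openSegment ℝ (toR c) (toR d)) : False := by
  obtain ⟨t, ht0, ht1, h1, h2⟩ := mem_os hx
  obtain ⟨u, hu0, hu1, h3, h4⟩ := mem_os hy
  simp only [boxZ, Bool.or_eq_true, Bool.and_eq_true, decide_eq_true_eq] at h
  rcases h with ((⟨⟨⟨p, q⟩, r⟩, s⟩ | ⟨⟨⟨p, q⟩, r⟩, s⟩) | ⟨⟨⟨p, q⟩, r⟩, s⟩) | ⟨⟨⟨p, q⟩, r⟩, s⟩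
  · have := conv_lt (a := (a.1 : ℝ)) (b := b.1) (c := c.1) (d := d.1) ht0 ht1 hu0 hu1
      (by exact_mod_cast p) (by exact_mod_cast q) (by exact_mod_cast r) (by exact_mod_cast s)
    linarith
  · have := conv_lt (a := (c.1 : ℝ)) (b := d.1) (c := a.1) (d := b.1) hu0 hu1 ht0 ht1
      (by exact_mod_cast p) (by exact_mod_cast q) (by exact_mod_cast r) (by exact_mod_cast s)
    linarith
  · have := conv_lt (a := (a.2 : ℝ)) (b := b.2) (c := c.2) (d := d.2) ht0 ht1 hu0 hu1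
      (by exact_mod_cast p) (by exact_mod_cast q) (by exact_mod_cast r) (by exact_mod_cast s)
    linarith
  · have := conv_lt (a := (c.2 : ℝ)) (b := d.2) (c := a.2) (d := b.2) hu0 hu1 ht0 ht1
      (by exact_mod_cast p) (by exact_mod_cast q) (by exact_mod_cast r) (by exact_mod_cast s)
    linarith

theorem apart_sound {a b c d : ℤ × ℤ} (h : apart a b c d = true) {x : ℝ × ℝ}
    (hx : x ∈ openSegment ℝ (toR a) (toR b)) (hy : x ∈ openSegment ℝ (toR c) (toR d)) : False := by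
  simp only [apart, Bool.or_eq_true] at h
  rcases h with (h | h) | h
  · exact box_sound h hx hy
  · exact side_sound h hx hy
  · exact side_sound h hy hx

theorem cross_unique {a b c d : ℤ × ℤ}
    (hdet : (b.1 - a.1) * (d.2 - c.2) - (b.2 - a.2) * (d.1 - c.1) ≠ 0) {x y : ℝ × ℝ}
    (hx : x ∈ openSegment ℝ (toR a) (toR b)) (hx' : x ∈ openSegment ℝ (toR c) (toR d))
    (hy : y ∈ openSegment ℝ (toR a) (toR b)) (hy' : y ∈ openSegment ℝ (toR c) (toR d)) : x = y := by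
  obtain ⟨t, -, -, h1, h2⟩ := mem_os hx
  obtain ⟨u, -, -, h3, h4⟩ := mem_os hx'
  obtain ⟨t', -, -, h5, h6⟩ := mem_os hy
  obtain ⟨u', -, -, h7, h8⟩ := mem_os hy'
  have hd : (((b.1 : ℝ) - a.1) * (d.2 - c.2) - (b.2 - a.2) * (d.1 - c.1)) ≠ 0 := by
    exact_mod_cast hdet
  have e1 : (t - t') * ((b.1 : ℝ) - a.1) = (u - u') * (d.1 - c.1) := by
    have : x.1 - y.1 = x.1 - y.1 := rfl
    nth_rewrite 1 [h1] at this
    nth_rewrite 1 [h5] at this
    rw [h3, h7] at this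
    linarith
  have e2 : (t - t') * ((b.2 : ℝ) - a.2) = (u - u') * (d.2 - c.2) := by
    have : x.2 - y.2 = x.2 - y.2 := rfl
    nth_rewrite 1 [h2] at this
    nth_rewrite 1 [h6] at this
    rw [h4, h8] at this
    linarith
  have e3 : (t - t') * (((b.1 : ℝ) - a.1) * (d.2 - c.2) - (b.2 - a.2) * (d.1 - c.1)) = 0 := by
    linear_combination (d.2 - c.2 : ℝ) * e1 - (d.1 - c.1 : ℝ) * e2
  have e4 : t - t' = 0 := by
    rcases mul_eq_zero.mp e3 with h | h
    · exact h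
    · exact absurd h hd
  have e5 : t = t' := by linarith
  subst e5
  ext
  · rw [h1, h5]
  · rw [h2, h6]

/-- certified: `p` is not in the open segment `ab` -/
def avoidZ (a b p : ℤ × ℤ) : Bool :=
  decide (crossZ a b p ≠ 0) ||
    (decide (a.1 ≠ b.1) && (decide (p.1 ≤ a.1 ∧ p.1 ≤ b.1) || decide (a.1 ≤ p.1 ∧ b.1 ≤ p.1))) ||
    (decide (a.2 ≠ b.2) && (decide (p.2 ≤ a.2 ∧ p.2 ≤ b.2) || decide (a.2 ≤ p.2 ∧ b.2 ≤ p.2)))

theorem conv_ne {t a b p : ℝ} (ht0 : 0 < t) (ht1 : t < 1) (hab : a ≠ b)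
    (h : (p ≤ a ∧ p ≤ b) ∨ (a ≤ p ∧ b ≤ p)) : p ≠ (1 - t) * a + t * b := by
  intro hp
  have h1 : 0 < 1 - t := by linarith
  rcases h with ⟨h2, h3⟩ | ⟨h2, h3⟩
  · have : (1 - t) * (a - p) + t * (b - p) = 0 := by linarith
    have h4 := mul_nonneg h1.le (sub_nonneg.mpr h2)
    have h5 := mul_nonneg ht0.le (sub_nonneg.mpr h3)
    have h6 : (1 - t) * (a - p) = 0 := by linarith
    have h7 : t * (b - p) = 0 := by linarith
    have h8 : a - p = 0 := by
      rcases mul_eq_zero.mp h6 with h | h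
      · linarith
      · exact h
    have h9 : b - p = 0 := by
      rcases mul_eq_zero.mp h7 with h | h
      · linarith
      · exact h
    exact hab (by linarith)
  · have : (1 - t) * (p - a) + t * (p - b) = 0 := by linarith
    have h4 := mul_nonneg h1.le (sub_nonneg.mpr h2)
    have h5 := mul_nonneg ht0.le (sub_nonneg.mpr h3)
    have h6 : (1 - t) * (p - a) = 0 := by linarith
    have h7 : t * (p - b) = 0 := by linarith
    have h8 : p - a = 0 := by
      rcases mul_eq_zero.mp h6 with h | h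
      · linarith
      · exact h
    have h9 : p - b = 0 := by
      rcases mul_eq_zero.mp h7 with h | h
      · linarith
      · exact h
    exact hab (by linarith)

theorem avoid_sound {a b p : ℤ × ℤ} (h : avoidZ a b p = true)
    (hx : toR p ∈ openSegment ℝ (toR a) (toR b)) : False := by
  obtain ⟨t, ht0, ht1, h1, h2⟩ := mem_os hx
  simp only [toR] at h1 h2
  simp only [avoidZ, Bool.or_eq_true, Bool.and_eq_true, decide_eq_true_eq] at h
  rcases h with (h | ⟨h, h'⟩) | ⟨h, h'⟩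
  · apply h
    have : (crossZ a b p : ℝ) = 0 := by
      simp only [crossZ]; push_cast; rw [h1, h2]; ring
    exact_mod_cast this
  · refine conv_ne (a := (a.1 : ℝ)) (b := b.1) (p := p.1) ht0 ht1 (by exact_mod_cast h) ?_ h1
    rcases h' with h' | h'
    · exact Or.inl ⟨by exact_mod_cast h'.1, by exact_mod_cast h'.2⟩
    · exact Or.inr ⟨by exact_mod_cast h'.1, by exact_mod_cast h'.2⟩
  · refine conv_ne (a := (a.2 : ℝ)) (b := b.2) (p := p.2) ht0 ht1 (by exact_mod_cast h) ?_ h2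
    rcases h' with h' | h'
    · exact Or.inl ⟨by exact_mod_cast h'.1, by exact_mod_cast h'.2⟩
    · exact Or.inr ⟨by exact_mod_cast h'.1, by exact_mod_cast h'.2⟩

/-- position of vertex class `v` in cell `(i,j)` -/
def vp (v : Fin 10) (i j : ℤ) : ℤ × ℤ := ((P v).1 + 60 * i, (P v).2 + 60 * j)

theorem check_avoid : ∀ c ∈ E, ∀ v : Fin 10, ∀ q ∈ cells,
    avoidZ (s1 c 0 0) (s2 c 0 0) (vp v q.1 q.2) = true := by
  decide +kernel

theorem check_bd : ∀ c ∈ E, (-1 ≤ c.2.2.1 ∧ c.2.2.1 ≤ 1) ∧ (-1 ≤ c.2.2.2 ∧ c.2.2.2 ≤ 1) ∧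
    c.1 < c.2.1 := by
  decide +kernel

theorem P_bd : ∀ v : Fin 10, (0 ≤ (P v).1 ∧ (P v).1 < 60) ∧ (0 ≤ (P v).2 ∧ (P v).2 < 60) := by
  decide +kernel

theorem P_inj : ∀ v w : Fin 10, P v = P w → v = w := by
  decide +kernel

theorem E_nodup : E.Nodup := by decide +kernel

theorem E_length : E.length = 63 := rfl

end Pool.Agent.H477R3.K5
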